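import Pool.Agent.Helper80.SI.StN

set_option autoImplicit false

/-! Project SI (helper99, helper80), MP_181f94_al: module N16 (helper78): the main inequality. -/

namespace Pool.Agent.Helper78.SI

open Pool.Agent.Helper99.SI Pool.Agent.Helper80.SI Filter Topology

section pairing

variable {n : ℕ}

/-- The pairing of a finitely supported function with a function. -/
noncomputable def pr (v : W n →₀ ℂ) (φ : W n → ℂ) : ℂ := v.sum fun c s => star s * φ c

lemma pr_zero (φ : W n → ℂ) : pr (0 : W n →₀ ℂ) φ = 0 := by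
  unfold pr
  exact Finsupp.sum_zero_index

lemma pr_add (v1 v2 : W n →₀ ℂ) (φ : W n → ℂ) : pr (v1 + v2) φ = pr v1 φ + pr v2 φ := by
  unfold pr
  refine Finsupp.sum_add_index' (fun c => ?_) (fun c s1 s2 => ?_)
  · simp
  · rw [star_add, add_mul]

lemma pr_smul (r : ℂ) (v : W n →₀ ℂ) (φ : W n → ℂ) : pr (r • v) φ = star r * pr v φ := by
  unfold pr
  rw [Finsupp.sum_smul_index' (fun c => by simp), Finsupp.mul_sum]
  refine Finsupp.sum_congr fun c _ => ?_
  rw [smul_eq_mul, star_mul]
  ring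

lemma pr_sum {ι : Type} (s : Finset ι) (v : ι → (W n →₀ ℂ)) (φ : W n → ℂ) :
    pr (∑ g ∈ s, v g) φ = ∑ g ∈ s, pr (v g) φ := by
  classical
  induction s using Finset.induction_on with
  | empty => simp [pr_zero]
  | insert a s ha ih => rw [Finset.sum_insert ha, Finset.sum_insert ha, pr_add, ih]

lemma pr_congr (v : W n →₀ ℂ) (φ ψ : W n → ℂ) (h : ∀ c, v c ≠ 0 → φ c = ψ c) : pr v φ = pr v ψ := by
  unfold pr
  refine Finsupp.sum_congr fun c hc => ?_
  rw [h c (Finsupp.mem_support_iff.mp hc)]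

lemma pr_add_right (v : W n →₀ ℂ) (φ ψ : W n → ℂ) : pr v (fun c => φ c + ψ c) = pr v φ + pr v ψ := by
  unfold pr
  rw [← Finsupp.sum_add]
  refine Finsupp.sum_congr fun c _ => ?_
  ring

lemma pr_mul_right (v : W n →₀ ℂ) (a : ℂ) (φ : W n → ℂ) : pr v (fun c => a * φ c) = a * pr v φ := by
  unfold pr
  rw [Finsupp.mul_sum]
  refine Finsupp.sum_congr fun c _ => ?_
  ring

lemma pr_zero_right (v : W n →₀ ℂ) : pr v (fun _ => 0) = 0 := by
  unfold pr
  simp [Finsupp.sum]

lemma pr_sum_right {ι : Type} (s : Finset ι) (v : W n →₀ ℂ) (φ : ι → W n → ℂ) :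
    pr v (fun c => ∑ g ∈ s, φ g c) = ∑ g ∈ s, pr v (φ g) := by
  classical
  induction s using Finset.induction_on with
  | empty => simp [pr_zero_right]
  | insert a s ha ih =>
    rw [Finset.sum_insert ha, ← ih, ← pr_add_right]
    refine pr_congr _ _ _ fun c _ => ?_
    rw [Finset.sum_insert ha]

end pairing

section forms

variable {n : ℕ} {L : Type} [Ring L] [Algebra ℂ L] [StarRing L] [StarModule ℂ L] [Nontrivial L]

/-- tau as a linear functional. -/
noncomputable def tl (h2 : StK2) (D : Sys n L) (c : W n) (hc : c ≠ []) : L →ₗ[ℂ] ℂ where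
  toFun := D.tau c
  map_add' := (h2 n L D c hc).2.1
  map_smul' := fun a y => by
    rw [RingHom.id_apply, smul_eq_mul]
    exact (h2 n L D c hc).2.2.1 a y

lemma tl_apply (h2 : StK2) (D : Sys n L) (c : W n) (hc : c ≠ []) (y : L) : tl h2 D c hc y = D.tau c y := rfl

lemma tau_emb (h2 : StK2) (D : Sys n L) (c : W n) (hc : c ≠ []) (T : L →ₗ[ℂ] L) (u : W n →₀ ℂ) :
    D.tau c (T (D.emb u)) = u.sum fun a r => r * D.tau c (T (D.w a)) := by
  have e1 : D.emb u = u.sum fun a r => r • D.w a := rfl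
  rw [e1, ← tl_apply h2 D c hc, map_finsuppSum, map_finsuppSum]
  refine Finsupp.sum_congr fun a _ => ?_
  rw [map_smul, map_smul, smul_eq_mul, tl_apply]

lemma gen_pr (h2 : StK2) (D : Sys n L) (T : L →ₗ[ℂ] L) (u v : W n →₀ ℂ) (hv : v [] = 0) :
    (u.sum fun a r => v.sum fun c s => r * star s * D.tau c (T (D.w a))) = pr v fun c => D.tau c (T (D.emb u)) := by
  unfold pr
  rw [Finsupp.sum_comm]
  refine Finsupp.sum_congr fun c hc => ?_
  have hc0 : c ≠ [] := by
    rintro rfl
    exact (Finsupp.mem_support_iff.mp hc) hv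
  change _ = star (v c) * D.tau c (T (D.emb u))
  rw [tau_emb h2 D c hc0 T u, Finsupp.mul_sum]
  refine Finsupp.sum_congr fun a _ => ?_
  ring

lemma hf_pr (h2 : StK2) (D : Sys n L) (u v : W n →₀ ℂ) (hv : v [] = 0) :
    D.hf u v = pr v fun c => D.tau c (D.emb u) :=
  gen_pr h2 D LinearMap.id u v hv

lemma df_pr (h2 : StK2) (D : Sys n L) (u v : W n →₀ ℂ) (hv : v [] = 0) :
    D.df u v = pr v fun c => D.tau c (D.b.dd (D.emb u)) :=
  gen_pr h2 D D.b.dd u v hv

/-- hf of homogeneous functions. -/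
lemma hf_hom (h15 : StK15) (D : Sys n L) (g g' : ℕ) (u v : W n →₀ ℂ) (hg : 1 ≤ g) (hg' : 1 ≤ g')
    (hu : ∀ ν, u ν ≠ 0 → ν.length = g) (hv : ∀ ν, v ν ≠ 0 → ν.length = g') (hr : RotInv v) :
    D.hf u v = if g = g' then (g : ℂ) * u.sum fun a r => r * star (v a) else 0 := by
  have hu0 : u [] = 0 := by
    by_contra h
    have := hu [] h
    simp at this
    omega
  have hv0 : v [] = 0 := by
    by_contra h
    have := hv [] h
    simp at this
    omega
  rw [(h15 n L D u v hu0 hv0).2 hr]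
  split_ifs with h
  · rw [Finsupp.mul_sum]
    refine Finsupp.sum_congr fun a ha => ?_
    rw [hu a (Finsupp.mem_support_iff.mp ha)]
  · have e : ∀ a ∈ u.support, (a.length : ℂ) * (u a * star (v a)) = 0 := by
      intro a ha
      have h1 := hu a (Finsupp.mem_support_iff.mp ha)
      have h2 : v a = 0 := by
        by_contra h2
        exact h (h1.symm.trans (hv a h2))
      rw [h2]
      simp
    exact Finset.sum_eq_zero e

lemma nsq_eq (u : W n →₀ ℂ) : (u.sum fun a r => r * star (u a)) = ((nsq u : ℝ) : ℂ) := by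
  unfold nsq Finsupp.sum
  rw [Complex.ofReal_sum]
  refine Finset.sum_congr rfl fun a _ => ?_
  change u a * star (u a) = ((‖u a‖ ^ 2 : ℝ) : ℂ)
  rw [Complex.star_def, Complex.mul_conj, Complex.normSq_eq_norm_sq]

lemma nsq_nonneg (u : W n →₀ ℂ) : 0 ≤ nsq u := by
  unfold nsq Finsupp.sum
  exact Finset.sum_nonneg fun a _ => by positivity

omit [Nontrivial L] in
/-- Homogeneity of emb. -/
lemma emb_hom (h1 : StA2) (D : Sys n L) (g : ℕ) (u : W n →₀ ℂ) (hu : ∀ ν, u ν ≠ 0 → ν.length = g) :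
    D.g.p (g : ℤ) (D.emb u) = D.emb u := by
  have e1 : D.emb u = u.sum fun a r => r • D.w a := rfl
  rw [e1, map_finsuppSum]
  refine Finsupp.sum_congr fun a ha => ?_
  have hl := hu a (Finsupp.mem_support_iff.mp ha)
  have h := h1 n L D (g : ℤ) a []
  have e2 : D.w ([] : W n) = 1 := rfl
  rw [e2, star_one, mul_one] at h
  rw [map_smul, h, if_pos (by simp [hl])]

end forms

theorem hN16 (h1 : StA2) (h2 : StK2) (h3 : StK15) (h4 : StK16) (h5 : StN9) (h6 : StN14) (h7 : StN15) : StN16 := by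
  intro n L _ _ _ _ _ D mg σ τ hσ hτ hστ hrot hsup hmg0 hid
  obtain ⟨C, K, hC, hN14⟩ := h6 n L D
  obtain ⟨b, hN15⟩ := h7 n L D
  refine ⟨2 * C * b, b, K + b + 1, fun N hN => ?_⟩
  -- basic facts
  have hnil : ∀ g, 1 ≤ g → mg g [] = 0 := by
    intro g hg
    by_contra h
    have := hsup g [] h
    simp at this
    omega
  have hne : ∀ g, 1 ≤ g → ∀ c, mg g c ≠ 0 → c ≠ [] := by
    intro g hg c hc h0
    rw [h0] at hc
    exact hc (hnil g hg)
  set a : ℕ → ℝ := fun g => nsq (mg g) with ha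
  have ha0 : ∀ g, 0 ≤ a g := fun g => nsq_nonneg _
  set U : W n →₀ ℂ := ∑ g ∈ Finset.Icc 1 N, ((g : ℂ)⁻¹) • mg g with hU
  have hU0 : U [] = 0 := by
    rw [hU, Finsupp.finsetSum_apply]
    refine Finset.sum_eq_zero fun g hg => ?_
    rw [Finsupp.smul_apply, hnil g (Finset.mem_Icc.mp hg).1, smul_zero]
  have hprU : ∀ φ : W n → ℂ, pr U φ = ∑ g ∈ Finset.Icc 1 N, (g : ℂ)⁻¹ * pr (mg g) φ := by
    intro φ
    rw [hU, pr_sum]
    refine Finset.sum_congr rfl fun g _ => ?_
    rw [pr_smul]
    simp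
  have hh : ∀ g g', 1 ≤ g → 1 ≤ g' → pr (mg g') (fun c => D.tau c (D.emb (mg g))) = if g = g' then (g : ℂ) * (a g : ℂ) else 0 := by
    intro g g' hg hg'
    rw [← hf_pr h2 D _ _ (hnil g' hg'), hf_hom h3 D g g' (mg g) (mg g') hg hg' (hsup g) (hsup g') (hrot g')]
    by_cases h : g = g'
    · subst h
      rw [if_pos rfl, if_pos rfl, nsq_eq]
    · rw [if_neg h, if_neg h]
  -- (i)
  have hi : pr U (fun c => D.tau c (D.emb (mg c.length))) = ((∑ g ∈ Finset.Icc 1 N, a g : ℝ) : ℂ) := by
    rw [hprU, Complex.ofReal_sum]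
    refine Finset.sum_congr rfl fun g hg => ?_
    have hg1 := (Finset.mem_Icc.mp hg).1
    have e1 : pr (mg g) (fun c => D.tau c (D.emb (mg c.length))) = pr (mg g) (fun c => D.tau c (D.emb (mg g))) :=
      pr_congr _ _ _ fun c hc => by rw [hsup g c hc]
    rw [e1, hh g g hg1 hg1, if_pos rfl]
    have hg0 : (g : ℂ) ≠ 0 := by
      exact_mod_cast (by omega : g ≠ 0)
    field_simp
  -- hf U U
  have hUU : D.hf U U = ((∑ g ∈ Finset.Icc 1 N, a g / (g : ℝ) : ℝ) : ℂ) := by
    rw [hf_pr h2 D _ _ hU0, hprU, Complex.ofReal_sum]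
    refine Finset.sum_congr rfl fun g hg => ?_
    have hg1 := (Finset.mem_Icc.mp hg).1
    have e1 : pr (mg g) (fun c => D.tau c (D.emb U)) =
        pr (mg g) (fun c => ∑ g' ∈ Finset.Icc 1 N, (g' : ℂ)⁻¹ * D.tau c (D.emb (mg g'))) := by
      refine pr_congr _ _ _ fun c hc => ?_
      have hc0 := hne g hg1 c hc
      rw [hU, map_sum, ← tl_apply h2 D c hc0, map_sum]
      refine Finset.sum_congr rfl fun g' _ => ?_
      rw [map_smul, map_smul, smul_eq_mul, tl_apply]
    rw [e1, pr_sum_right]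
    have e2 : ∀ g' ∈ Finset.Icc 1 N, pr (mg g) (fun c => (g' : ℂ)⁻¹ * D.tau c (D.emb (mg g'))) =
        if g = g' then (a g : ℂ) else 0 := by
      intro g' hg'
      have hg1' := (Finset.mem_Icc.mp hg').1
      rw [pr_mul_right, hh g' g hg1' hg1]
      by_cases h : g = g'
      · subst h
        rw [if_pos rfl, if_pos rfl]
        have hg0 : (g : ℂ) ≠ 0 := by
          exact_mod_cast (by omega : g ≠ 0)
        field_simp
      · rw [if_neg h, if_neg (fun h' => h h'.symm), mul_zero]
    rw [Finset.sum_congr rfl e2, Finset.sum_ite_eq, if_pos hg]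
    push_cast
    ring
  -- (ii)
  set E : ℂ := pr U (fun c => ∑ g ∈ Finset.Ioc N (N + b), D.tau c (D.emb (mg g) * HH D)) with hE
  have hii : pr U (fun c => ∑ᶠ g : ℕ, D.tau c (D.emb (mg g) * HH D)) = D.df U U + E := by
    rw [df_pr h2 D _ _ hU0, hE, ← pr_add_right]
    refine pr_congr _ _ _ fun c hc => ?_
    -- the length of c
    have hcl : 1 ≤ c.length ∧ c.length ≤ N := by
      rw [hU, Finsupp.finsetSum_apply] at hc
      obtain ⟨g, hg, hgc⟩ := Finset.exists_ne_zero_of_sum_ne_zero hc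
      rw [Finsupp.smul_apply, smul_eq_mul] at hgc
      have := hsup g c (right_ne_zero_of_mul hgc)
      rw [this]
      exact Finset.mem_Icc.mp hg
    have hc0 : c ≠ [] := by
      rintro rfl
      simp at hcl
    have hsub : (Function.support fun g : ℕ => D.tau c (D.emb (mg g) * HH D)) ⊆ ((Finset.Icc 1 N ∪ Finset.Ioc N (N + b) : Finset ℕ) : Set ℕ) := by
      intro g hg
      by_contra hgn
      apply hg
      simp only [Finset.coe_union, Set.mem_union, Finset.mem_coe, Finset.mem_Icc, Finset.mem_Ioc, not_or, not_and, not_le] at hgn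
      by_cases hg0 : g = 0
      · change D.tau c (D.emb (mg g) * HH D) = 0
        rw [hg0, hmg0, map_zero, zero_mul, ← tl_apply h2 D c hc0, map_zero]
      · have : N + b < g := by
          by_cases hgN : g ≤ N
          · have := hgn.1 (by omega)
            omega
          · exact hgn.2 (by omega)
        exact hN15 c (g : ℤ) (D.emb (mg g)) hc0 (emb_hom h1 D g (mg g) (hsup g)) (Or.inl (by omega))
    rw [finsum_eq_sum_of_support_subset _ hsub, Finset.sum_union (by
      rw [Finset.disjoint_left]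
      intro g hg hg'
      rw [Finset.mem_Icc] at hg
      rw [Finset.mem_Ioc] at hg'
      omega)]
    congr 1
    rw [hU, map_sum, map_sum, ← tl_apply h2 D c hc0, map_sum]
    refine Finset.sum_congr rfl fun g hg => ?_
    have hg1 := (Finset.mem_Icc.mp hg).1
    rw [map_smul, map_smul, map_smul, smul_eq_mul, tl_apply, ← (h5 n L D (mg g) g c hc0 hg1 (hrot g) (hsup g)).1]
    have hg0 : (g : ℂ) ≠ 0 := by
      exact_mod_cast (by omega : g ≠ 0)
    field_simp
  -- the identity
  have hid2 : (σ : ℂ) * ((∑ g ∈ Finset.Icc 1 N, a g : ℝ) : ℂ) + (τ : ℂ) * (D.df U U + E) = 0 := by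
    rw [← hi, ← hii, ← pr_mul_right, ← pr_mul_right, ← pr_add_right, ← pr_zero_right U]
    refine pr_congr _ _ _ fun c hc => ?_
    have hc0 : c ≠ [] := by
      rintro rfl
      exact hc hU0
    exact hid c hc0
  -- the bound for E
  have hEb : ‖E‖ ≤ 2 * C * b * ∑ g ∈ Finset.Icc (N - b) (N + b), a g := by
    set S : ℝ := ∑ g ∈ Finset.Icc (N - b) (N + b), a g with hS
    have hE2 : E = ∑ g' ∈ Finset.Icc 1 N, (g' : ℂ)⁻¹ * ∑ g ∈ Finset.Ioc N (N + b), pr (mg g') (fun c => D.tau c (D.emb (mg g) * HH D)) := by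
      rw [hE, hprU]
      refine Finset.sum_congr rfl fun g' _ => ?_
      rw [pr_sum_right]
    have hin : ∀ g' ∈ Finset.Icc 1 N, ∀ g ∈ Finset.Ioc N (N + b),
        ‖(g' : ℂ)⁻¹ * pr (mg g') (fun c => D.tau c (D.emb (mg g) * HH D))‖ ≤
          if N < g' + b then C * (a g + a g') else 0 := by
      intro g' hg' g hg
      rw [Finset.mem_Icc] at hg'
      rw [Finset.mem_Ioc] at hg
      by_cases hgb : N < g' + b
      · rw [if_pos hgb]
        have h := hN14 g g' (mg g) (mg g') (by omega) hg'.1 (hrot g') (hsup g) (hsup g')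
        rw [norm_mul, norm_inv, Complex.norm_natCast]
        have hg0 : (0 : ℝ) < g' := by
          exact_mod_cast hg'.1
        have h' : ‖pr (mg g') (fun c => D.tau c (D.emb (mg g) * HH D))‖ ≤ C * g' * (a g + a g') := h
        calc (g' : ℝ)⁻¹ * ‖pr (mg g') (fun c => D.tau c (D.emb (mg g) * HH D))‖
            ≤ (g' : ℝ)⁻¹ * (C * g' * (a g + a g')) := mul_le_mul_of_nonneg_left h' (by positivity)
          _ = C * (a g + a g') := by field_simp
      · rw [if_neg hgb]
        have e0 : pr (mg g') (fun c => D.tau c (D.emb (mg g) * HH D)) = 0 := by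
          rw [← pr_zero_right (mg g')]
          refine pr_congr _ _ _ fun c hc => ?_
          exact hN15 c (g : ℤ) (D.emb (mg g)) (hne g' hg'.1 c hc) (emb_hom h1 D g (mg g) (hsup g))
            (Or.inl (by
              rw [hsup g' c hc]
              omega))
        rw [e0, mul_zero, norm_zero]
    have hsumg : ∀ g' ∈ Finset.Icc 1 N, ∑ g ∈ Finset.Ioc N (N + b), (if N < g' + b then C * (a g + a g') else 0) ≤
        if N < g' + b then C * ((∑ g ∈ Finset.Ioc N (N + b), a g) + b * a g') else 0 := by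
      intro g' _
      split_ifs with h
      · rw [← Finset.mul_sum, Finset.sum_add_distrib, Finset.sum_const, Nat.card_Ioc, nsmul_eq_mul]
        have : N + b - N = b := by omega
        rw [this]
      · simp
    have hA : ∑ g ∈ Finset.Ioc N (N + b), a g ≤ S := by
      refine Finset.sum_le_sum_of_subset_of_nonneg ?_ fun g _ _ => ha0 g
      intro g hg
      rw [Finset.mem_Ioc] at hg
      rw [Finset.mem_Icc]
      omega
    have hS0 : 0 ≤ S := Finset.sum_nonneg fun g _ => ha0 g
    calc ‖E‖ ≤ ∑ g' ∈ Finset.Icc 1 N, ‖(g' : ℂ)⁻¹ * ∑ g ∈ Finset.Ioc N (N + b), pr (mg g') (fun c => D.tau c (D.emb (mg g) * HH D))‖ := by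
          rw [hE2]
          exact norm_sum_le _ _
      _ ≤ ∑ g' ∈ Finset.Icc 1 N, if N < g' + b then C * ((∑ g ∈ Finset.Ioc N (N + b), a g) + b * a g') else 0 := by
          refine Finset.sum_le_sum fun g' hg' => ?_
          rw [Finset.mul_sum]
          refine (norm_sum_le _ _).trans ((Finset.sum_le_sum (hin g' hg')).trans (hsumg g' hg'))
      _ = ∑ g' ∈ (Finset.Icc 1 N).filter (fun g' => N < g' + b), C * ((∑ g ∈ Finset.Ioc N (N + b), a g) + b * a g') := by
          rw [Finset.sum_filter]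
      _ ≤ 2 * C * b * S := by
          rw [← Finset.mul_sum, Finset.sum_add_distrib, ← Finset.mul_sum, Finset.sum_const, nsmul_eq_mul]
          have hF : (Finset.Icc 1 N).filter (fun g' => N < g' + b) ⊆ Finset.Ioc (N - b) N := by
            intro g hg
            rw [Finset.mem_filter, Finset.mem_Icc] at hg
            rw [Finset.mem_Ioc]
            omega
          have hF2 : (Finset.Icc 1 N).filter (fun g' => N < g' + b) ⊆ Finset.Icc (N - b) (N + b) := by
            intro g hg
            rw [Finset.mem_filter, Finset.mem_Icc] at hg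
            rw [Finset.mem_Icc]
            omega
          have hcard : (((Finset.Icc 1 N).filter (fun g' => N < g' + b)).card : ℝ) ≤ b := by
            have h := Finset.card_le_card hF
            rw [Nat.card_Ioc] at h
            exact_mod_cast (h.trans (by omega))
          have hB : ∑ g' ∈ (Finset.Icc 1 N).filter (fun g' => N < g' + b), a g' ≤ S :=
            Finset.sum_le_sum_of_subset_of_nonneg hF2 fun g _ _ => ha0 g
          have hb0 : (0 : ℝ) ≤ b := Nat.cast_nonneg _
          have hA0 : 0 ≤ ∑ g ∈ Finset.Ioc N (N + b), a g := Finset.sum_nonneg fun g _ => ha0 g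
          have e1 : (((Finset.Icc 1 N).filter (fun g' => N < g' + b)).card : ℝ) * ∑ g ∈ Finset.Ioc N (N + b), a g ≤ b * S :=
            mul_le_mul hcard hA hA0 hb0
          have e2 : (b : ℝ) * ∑ g' ∈ (Finset.Icc 1 N).filter (fun g' => N < g' + b), a g' ≤ b * S :=
            mul_le_mul_of_nonneg_left hB hb0
          have e3 := mul_le_mul_of_nonneg_left (add_le_add e1 e2) hC
          refine e3.trans (le_of_eq ?_)
          ring
  -- conclusion
  have hre := congrArg Complex.re hid2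
  have hk16 := h4 n L D U hU0
  rw [hUU, Complex.ofReal_re] at hk16
  simp only [Complex.add_re, Complex.mul_re, Complex.ofReal_re, Complex.ofReal_im, zero_mul, sub_zero, Complex.zero_re] at hre
  have hsum_le : ∑ g ∈ Finset.Icc 1 N, a g / (g : ℝ) ≤ ∑ g ∈ Finset.Icc 1 N, a g := by
    refine Finset.sum_le_sum fun g hg => ?_
    have hg1 : (1 : ℝ) ≤ g := by exact_mod_cast (Finset.mem_Icc.mp hg).1
    exact div_le_self (ha0 g) hg1
  have hEre : - E.re ≤ ‖E‖ := by
    have := Complex.abs_re_le_norm E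
    have := neg_abs_le E.re
    linarith
  have hτ1 : τ ≤ 1 := by linarith
  have hE0 : 0 ≤ ‖E‖ := norm_nonneg _
  calc ∑ g ∈ Finset.Icc 1 N, nsq (mg g) / (g : ℝ) = σ * (∑ g ∈ Finset.Icc 1 N, a g / (g : ℝ)) + τ * (∑ g ∈ Finset.Icc 1 N, a g / (g : ℝ)) := by
        rw [← add_mul, hστ, one_mul]
    _ ≤ σ * (∑ g ∈ Finset.Icc 1 N, a g) + τ * (D.df U U).re :=
        add_le_add (mul_le_mul_of_nonneg_left hsum_le hσ) (mul_le_mul_of_nonneg_left hk16 hτ)
    _ = τ * (- E.re) := by linarith
    _ ≤ τ * ‖E‖ := mul_le_mul_of_nonneg_left hEre hτ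
    _ ≤ 1 * ‖E‖ := mul_le_mul_of_nonneg_right hτ1 hE0
    _ ≤ 2 * C * b * ∑ g ∈ Finset.Icc (N - b) (N + b), a g := by
        rw [one_mul]
        exact hEb

end Pool.Agent.Helper78.SI
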