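import Pool.Agent.Helper99.SI.StS

set_option autoImplicit false

namespace Pool.Agent.Helper78.SI

open Pool.Agent.Helper99.SI

theorem zero_of {H : Type} [NormedAddCommGroup H] [InnerProductSpace ℂ H] {ι : Type} [Fintype ι]
    {e : ι → H} {T : H →L[ℂ] H} (hco : Coer e T) {d : H} (hd : ∀ i, inner ℂ (e i) d = 0)
    (hTd : T d ∈ Submodule.span ℂ (Set.range e)) : d = 0 := by
  obtain ⟨c, hc, h⟩ := hco
  have h1 := h d hd
  obtain ⟨a, ha⟩ := (Submodule.mem_span_range_iff_exists_fun ℂ).1 hTd
  have h2 : inner ℂ d (T d) = 0 := by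
    rw [← ha, inner_sum]
    refine Finset.sum_eq_zero fun i _ => ?_
    rw [inner_smul_right, ← inner_conj_symm, hd i, map_zero, mul_zero]
  rw [h2, Complex.zero_re] at h1
  have h3 : ‖d‖ ^ 2 ≤ 0 := by
    by_contra h4
    push Not at h4
    have := mul_pos hc h4
    linarith
  have h4 : ‖d‖ = 0 := by
    have h5 := sq_nonneg ‖d‖
    exact pow_eq_zero_iff (two_ne_zero) |>.1 (le_antisymm h3 h5)
  exact norm_eq_zero.1 h4

theorem hS5 : StS5 := by
  intro H _ _ _ ι _ _ e he T S C hco hS hadd hsmul hinj hcomm hV hH1
  obtain ⟨w, hw1, hw2⟩ := hS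
  have hC0 : C 0 = 0 := by
    have := hsmul 0 0
    rwa [zero_smul, star_zero, zero_smul] at this
  have hCsum : ∀ (s : Finset ι) (f : ι → H), C (∑ i ∈ s, f i) = ∑ i ∈ s, C (f i) := by
    classical
    intro s f
    induction s using Finset.induction_on with
    | empty => rw [Finset.sum_empty, Finset.sum_empty, hC0]
    | insert a s ha ih => rw [Finset.sum_insert ha, Finset.sum_insert ha, hadd, ih]
  have hK : ∀ j, ∃ k : ι → ℂ, ∑ i, k i • e i = C (e j) := fun j =>
    (Submodule.mem_span_range_iff_exists_fun ℂ).1 (hV j)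
  choose k hk using hK
  have hmem : ∀ a : ι → ℂ, ∑ i, a i • e i ∈ Submodule.span ℂ (Set.range e) := fun a =>
    (Submodule.mem_span_range_iff_exists_fun ℂ).2 ⟨a, rfl⟩
  -- the difference vanishes
  have hTC : ∀ j, T (C (e j + w j)) = ∑ i, star (S i j) • C (e i) := by
    intro j
    rw [hcomm, hw2, hCsum]
    refine Finset.sum_congr rfl fun i _ => hsmul _ _
  have hd : ∀ j, C (w j) - ∑ i, k j i • w i = 0 := by
    intro j
    apply zero_of hco
    · intro l
      rw [inner_sub_right, hH1 (w j) (fun i => hw1 i j) l, inner_sum, zero_sub, neg_eq_zero]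
      refine Finset.sum_eq_zero fun i _ => ?_
      rw [inner_smul_right, hw1 l i, mul_zero]
    · have e1 : C (w j) - ∑ i, k j i • w i = C (e j + w j) - ∑ i, k j i • (e i + w i) := by
        rw [hadd, ← hk j]
        simp only [smul_add, Finset.sum_add_distrib]
        abel
      rw [e1, map_sub, hTC j, map_sum]
      apply Submodule.sub_mem
      · exact Submodule.sum_mem _ fun i _ => Submodule.smul_mem _ _ (hV i)
      · refine Submodule.sum_mem _ fun i _ => ?_
        rw [map_smul, hw2]
        exact Submodule.smul_mem _ _ (hmem _)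
  have hCe : ∀ j, C (e j + w j) = ∑ i, k j i • (e i + w i) := by
    intro j
    have h1 := sub_eq_zero.1 (hd j)
    rw [hadd, h1, ← hk j]
    simp only [smul_add, Finset.sum_add_distrib]
  -- coefficients
  have hco2 : ∀ (a b : ι → ℂ), ∑ i, a i • e i = ∑ i, b i • e i → a = b := by
    intro a b hab
    funext l
    have h1 := congrArg (fun y => inner ℂ (e l) y) hab
    simp only [he.inner_right_fintype] at h1
    exact h1
  obtain ⟨K, hKd⟩ : ∃ K : Matrix ι ι ℂ, K = Matrix.of fun i j => k j i := ⟨_, rfl⟩
  have hmat : K * S.map (starRingEnd ℂ) = S * K := by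
    ext l j
    have h1 := hTC j
    rw [hCe j, map_sum] at h1
    have h2 : ∑ l, (∑ i, S l i * k j i) • e l = ∑ l, (∑ i, k i l * star (S i j)) • e l := by
      calc ∑ l, (∑ i, S l i * k j i) • e l = ∑ i, T (k j i • (e i + w i)) := by
            simp only [map_smul, hw2, Finset.smul_sum, Finset.sum_smul, smul_smul]
            rw [Finset.sum_comm]
            refine Finset.sum_congr rfl fun i _ => Finset.sum_congr rfl fun l _ => ?_
            rw [mul_comm]
        _ = ∑ i, star (S i j) • C (e i) := h1
        _ = ∑ l, (∑ i, k i l * star (S i j)) • e l := by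
            simp only [← hk, Finset.smul_sum, Finset.sum_smul, smul_smul]
            rw [Finset.sum_comm]
            refine Finset.sum_congr rfl fun i _ => Finset.sum_congr rfl fun l _ => ?_
            rw [mul_comm]
    have h3 := congrFun (hco2 _ _ h2) l
    rw [Matrix.mul_apply, Matrix.mul_apply, hKd]
    simp only [Matrix.of_apply, Matrix.map_apply]
    exact h3.symm
  have hKdet : K.det ≠ 0 := by
    intro h0
    obtain ⟨a, ha0, ha⟩ := Matrix.exists_mulVec_eq_zero_iff.2 h0
    apply ha0
    have h1 : C (∑ j, star (a j) • e j) = C 0 := by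
      rw [hCsum, hC0]
      calc ∑ j, C (star (a j) • e j) = ∑ j, a j • C (e j) := by
            refine Finset.sum_congr rfl fun j _ => ?_
            rw [hsmul, star_star]
        _ = ∑ l, (∑ j, K l j * a j) • e l := by
            simp only [← hk, Finset.smul_sum, Finset.sum_smul, smul_smul]
            rw [Finset.sum_comm]
            refine Finset.sum_congr rfl fun i _ => Finset.sum_congr rfl fun l _ => ?_
            rw [hKd, Matrix.of_apply, mul_comm]
        _ = 0 := by
            refine Finset.sum_eq_zero fun l _ => ?_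
            have := congrFun ha l
            rw [Matrix.mulVec, dotProduct] at this
            rw [this, Pi.zero_apply, zero_smul]
    have h2 := hinj h1
    have h3 : ∑ j, star (a j) • e j = ∑ j, (0 : ι → ℂ) j • e j := by
      rw [h2]
      simp
    have h4 := hco2 _ _ h3
    funext j
    have h5 := congrFun h4 j
    rw [Pi.zero_apply] at h5
    rw [Pi.zero_apply]
    exact star_eq_zero.1 h5
  have hdet : (starRingEnd ℂ) S.det = S.det := by
    have h1 := congrArg Matrix.det hmat
    rw [Matrix.det_mul, Matrix.det_mul, mul_comm S.det] at h1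
    have h2 := mul_left_cancel₀ hKdet h1
    rw [RingHom.map_det]
    exact h2
  exact Complex.conj_eq_iff_im.1 hdet

end Pool.Agent.Helper78.SI
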